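import Pool.Agent.helper90.ZD.SpecB
import Pool.Agent.helper63.ED.PW
import Pool.Agent.helper59.DM.DV

/-! # Project zd (MP_4467b5_nt), module BQS: one level of the third moment -/

set_option autoImplicit false

open Complex MeasureTheory

namespace Pool.Agent.ZD

open Pool.Agent.helper84.DM Pool.Agent.helper78.ED Pool.Agent.DH

theorem BQS_gauss (δ : ℝ) (hδ : 0 < δ) : ∃ T₀ : ℝ, ∀ T : ℝ, T₀ ≤ T →
    400 * T ^ (3 : ℕ) * Real.exp (-(T ^ δ) ^ 2 / 4) ≤ 1 := by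
  obtain ⟨k, hk⟩ := exists_nat_ge (3 / (2 * δ))
  have h1 := Real.tendsto_pow_mul_exp_neg_atTop_nhds_zero k
  have h2 : Filter.Tendsto (fun T : ℝ => T ^ (2 * δ) / 4) Filter.atTop Filter.atTop :=
    (tendsto_rpow_atTop (by positivity : (0 : ℝ) < 2 * δ)).atTop_div_const (by norm_num)
  have h3 := h1.comp h2
  have h4 : ∀ᶠ T : ℝ in Filter.atTop,
      ((fun x : ℝ => x ^ k * Real.exp (-x)) ∘ fun T : ℝ => T ^ (2 * δ) / 4) T <
        1 / (400 * 4 ^ k) :=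
    h3.eventually_lt_const (by positivity)
  obtain ⟨T₁, hT₁⟩ := Filter.eventually_atTop.1 h4
  refine ⟨max T₁ 1, fun T hT => ?_⟩
  have hT1 : 1 ≤ T := (le_max_right _ _).trans hT
  have hT0 : 0 < T := by linarith
  have h5 := hT₁ T ((le_max_left _ _).trans hT)
  simp only [Function.comp_apply] at h5
  have h6 : (T ^ δ) ^ 2 = T ^ (2 * δ) := by
    rw [← Real.rpow_natCast, ← Real.rpow_mul hT0.le]
    congr 1
    push_cast
    ring
  have h7 : T ^ (3 : ℕ) ≤ (T ^ (2 * δ)) ^ k := by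
    rw [← Real.rpow_natCast (T ^ (2 * δ)), ← Real.rpow_mul hT0.le, ← Real.rpow_natCast T]
    apply Real.rpow_le_rpow_of_exponent_le hT1
    push_cast
    rw [div_le_iff₀ (by positivity)] at hk
    linarith
  rw [h6]
  have h8 : -T ^ (2 * δ) / 4 = -(T ^ (2 * δ) / 4) := by ring
  rw [h8]
  have h9 : (T ^ (2 * δ) / 4) ^ k = (T ^ (2 * δ)) ^ k / 4 ^ k := div_pow _ _ _
  rw [h9, lt_div_iff₀ (by positivity)] at h5
  have h10 : (T ^ (2 * δ)) ^ k / 4 ^ k * Real.exp (-(T ^ (2 * δ) / 4)) * (400 * 4 ^ k) =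
      400 * (T ^ (2 * δ)) ^ k * Real.exp (-(T ^ (2 * δ) / 4)) := by
    field_simp
  rw [h10] at h5
  have h11 : 400 * T ^ (3 : ℕ) * Real.exp (-(T ^ (2 * δ) / 4)) ≤
      400 * (T ^ (2 * δ)) ^ k * Real.exp (-(T ^ (2 * δ) / 4)) := by
    apply mul_le_mul_of_nonneg_right _ (Real.exp_pos _).le
    linarith
  linarith

theorem BQS_log (ε : ℝ) (hε : 0 < ε) : ∃ C : ℝ, 0 < C ∧ ∀ T : ℝ, 1 ≤ T →
    (Real.log T + 8) ^ 2 ≤ C * T ^ ε := by
  refine ⟨(2 / ε + 8) ^ 2, by positivity, fun T hT => ?_⟩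
  have hT0 : 0 < T := by linarith
  have h1 : Real.log T ≤ T ^ (ε / 2) / (ε / 2) := Real.log_le_rpow_div hT0.le (by positivity)
  have h2 : 0 ≤ Real.log T := Real.log_nonneg hT
  have h3 : 1 ≤ T ^ (ε / 2) := Real.one_le_rpow hT (by positivity)
  have h4 : Real.log T + 8 ≤ (2 / ε + 8) * T ^ (ε / 2) := by
    have h5 : T ^ (ε / 2) / (ε / 2) = 2 / ε * T ^ (ε / 2) := by field_simp
    rw [h5] at h1
    linarith
  calc (Real.log T + 8) ^ 2 ≤ ((2 / ε + 8) * T ^ (ε / 2)) ^ 2 := by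
        apply pow_le_pow_left₀ (by linarith) h4
    _ = (2 / ε + 8) ^ 2 * T ^ ε := by
        rw [mul_pow, ← Real.rpow_natCast (T ^ (ε / 2)), ← Real.rpow_mul hT0.le]
        congr 2
        push_cast
        ring

theorem BQS_sep {δ T : ℝ} {W : Finset ℝ} (hδ : 0 < δ) (hT : 1 ≤ T) (h : Sep δ T W) :
    Sep 0 T W := by
  refine ⟨h.1, fun t ht t' ht' hne => ?_⟩
  rw [Real.rpow_zero]
  exact (Real.one_le_rpow hT hδ.le).trans (h.2 t ht t' ht' hne)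

theorem BQS_cnt_nonneg (A : Finset ℕ) (z η : ℝ) : 0 ≤ cnt A z η := by
  unfold cnt
  refine Finset.sum_nonneg fun n _ => Finset.sum_nonneg fun m _ => ?_
  split_ifs <;> norm_num

theorem BQS_cnt_zero (A : Finset ℕ) (η : ℝ) (hη : 0 ≤ η) : (A.card : ℝ) ≤ cnt A 0 η := by
  unfold cnt
  have h : ∀ n ∈ A, (1 : ℝ) ≤ ∑ m ∈ A,
      (if |(0 : ℝ) - (Real.log n - Real.log m)| ≤ η then (1 : ℝ) else 0) := by
    intro n hn
    have h1 : (if |(0 : ℝ) - (Real.log n - Real.log n)| ≤ η then (1 : ℝ) else 0) ≤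
        ∑ m ∈ A, (if |(0 : ℝ) - (Real.log n - Real.log m)| ≤ η then (1 : ℝ) else 0) := by
      refine Finset.single_le_sum
        (f := fun m : ℕ => if |(0 : ℝ) - (Real.log n - Real.log m)| ≤ η then (1 : ℝ) else 0)
        (fun m _ => ?_) hn
      split_ifs <;> norm_num
    rw [if_pos (by simpa using hη)] at h1
    exact h1
  calc (A.card : ℝ) = ∑ n ∈ A, (1 : ℝ) := by simp
    _ ≤ _ := Finset.sum_le_sum h

theorem BQS_KQ_nonneg {R N V S : ℝ} (hR : 0 ≤ R) (hN : 0 ≤ N) (hV : 0 ≤ V) (hS : 0 ≤ S) :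
    0 ≤ KQ R N V S := by
  unfold KQ
  have h1 : 0 ≤ R ^ (5 / 4 : ℝ) := Real.rpow_nonneg hR _
  have h2 : 0 ≤ (N / V) ^ (3 / 2 : ℝ) := Real.rpow_nonneg (div_nonneg hN hV) _
  have h3 : 0 ≤ S ^ (1 / 3 : ℝ) := Real.rpow_nonneg hS _
  have h4 : 0 ≤ V ^ (-(4 / 3 : ℝ)) := Real.rpow_nonneg hV _
  positivity

theorem BQS_S0_nonneg {δ T : ℝ} {W : Finset ℝ} (hT : 0 ≤ T) : 0 ≤ S0 δ T W := by
  unfold S0
  have h1 : 0 ≤ (W.card : ℝ) ^ (3 / 2 : ℝ) := Real.rpow_nonneg (Nat.cast_nonneg _) _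
  have h2 : 0 ≤ T ^ ((1 + δ) / 3) := Real.rpow_nonneg hT _
  positivity

theorem BQS_SN_nonneg (W : Finset ℝ) (J : Finset ℤ) (x : ℤ → ℝ) : 0 ≤ SN W J x := by
  unfold SN
  exact Finset.sum_nonneg fun t _ => Finset.sum_nonneg fun t' _ => by positivity

set_option maxHeartbeats 4000000 in
theorem BQS (h1 : BC1_stmt) (h2 : BC2_stmt) (h3 : BCJ_stmt) (h4 : BC4_stmt) (h5 : BQL_stmt) :
    BQS_stmt := by
  intro ε δ hε hδ hδ1
  obtain ⟨C₁, hC₁, hb1⟩ := h1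
  obtain ⟨C₃, T₃, hC₃, hb3⟩ := h3 (ε / 2) δ (by positivity) hδ hδ1
  obtain ⟨C₄, T₄, hC₄, hb4⟩ := h4 (ε / 4) δ (by positivity) hδ hδ1
  obtain ⟨D₀, hD₀, hdiv⟩ := divisor_bound (ε / 16) (by positivity)
  obtain ⟨CL, hCL, hlog⟩ := BQS_log (ε / 2) (by positivity)
  obtain ⟨T₅, hgauss⟩ := BQS_gauss δ hδ
  -- divisor constant
  set D₁ : ℝ := max 1 (D₀ * (4 : ℝ) ^ (ε / 16)) with hD₁
  have hD₁1 : 1 ≤ D₁ := le_max_left _ _
  set K : ℝ := 5 * C₁ + 2 * 10 ^ 5 * CL + C₃ + C₄ * D₁ ^ 4 + 1 with hK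
  have hK0 : 0 < K := by positivity
  refine ⟨2 * K ^ 2, max 1 (max T₃ (max T₄ T₅)), by positivity, ?_⟩
  intro T hT W hW N₀ a A V₀ lam J x hN1 hN2 hA hV₀ ha hDP hS0 hWS hJ hlam hrho
  have hT1 : 1 ≤ T := (le_max_left _ _).trans hT
  have hT3 : T₃ ≤ T := (le_max_left _ _).trans ((le_max_right _ _).trans hT)
  have hT4 : T₄ ≤ T :=
    (le_max_left _ _).trans ((le_max_right _ _).trans ((le_max_right _ _).trans hT))
  have hT5 : T₅ ≤ T :=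
    (le_max_right _ _).trans ((le_max_right _ _).trans ((le_max_right _ _).trans hT))
  have hT0 : 0 < T := by linarith
  have hS00 : 0 ≤ S0 δ T W := BQS_S0_nonneg hT0.le
  have hKQ : 0 ≤ KQ (W.card : ℝ) ((N₀ : ℝ) ^ 2) (V₀ ^ 2) (S0 δ T W) :=
    BQS_KQ_nonneg (Nat.cast_nonneg _) (by positivity) (by positivity) hS00
  have hA0 : 0 < A := by linarith
  rcases Finset.eq_empty_or_nonempty J with hJe | ⟨j₀, hj₀⟩
  · rw [hJe]
    simp only [Finset.card_empty, Nat.cast_zero, zero_mul]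
    positivity
  -- W nonempty
  have hWne : W.Nonempty := by
    by_contra hcon
    rw [Finset.not_nonempty_iff_eq_empty] at hcon
    have h := hrho j₀ hj₀
    rw [hcon] at h
    simp [rho] at h
    linarith
  have hR0 : (0 : ℝ) < (W.card : ℝ) := by
    exact_mod_cast Finset.card_pos.2 hWne
  have hNsq : (0 : ℝ) < (N₀ : ℝ) ^ 2 := lt_of_lt_of_le (Real.rpow_pos_of_pos hT0 _) hN1
  have hN0pos : 1 ≤ N₀ := by
    rcases Nat.eq_zero_or_pos N₀ with h | h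
    · rw [h] at hNsq; norm_num at hNsq
    · exact h
  have hN0R : (1 : ℝ) ≤ N₀ := by exact_mod_cast hN0pos
  have hN0T : (N₀ : ℝ) ≤ T := by nlinarith
  have hSep0 : Sep 0 T W := BQS_sep hδ hT1 hW
  have hη0 : 0 < T ^ (δ - 1) := Real.rpow_pos_of_pos hT0 _
  have hη1 : 1 / T ≤ T ^ (δ - 1) := by
    rw [one_div, ← Real.rpow_neg_one]
    exact Real.rpow_le_rpow_of_exponent_le hT1 (by linarith)
  have hTη : T * T ^ (δ - 1) = T ^ δ := by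
    rw [Real.rpow_sub hT0, Real.rpow_one]
    field_simp
  have hlam0 : 0 < lam := by linarith
  have hTd : 1 ≤ T ^ δ := Real.one_le_rpow hT1 hδ.le
  -- E
  set E : ℝ := K * A ^ 4 * T ^ (ε / 2 + 2 * δ) with hE
  have hA4 : 1 ≤ A ^ 4 := one_le_pow₀ hA
  have hTe : 1 ≤ T ^ (ε / 2 + 2 * δ) := Real.one_le_rpow hT1 (by positivity)
  have hK1 : 1 ≤ K := by
    have : 0 ≤ C₄ * D₁ ^ 4 := by positivity
    rw [hK]; linarith [hC₁.le, hCL.le, hC₃.le]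
  have hE1 : 1 ≤ E := by
    rw [hE]
    have : 1 ≤ K * A ^ 4 := by nlinarith
    nlinarith
  have hElow : ∀ c : ℝ, 0 ≤ c → c ≤ K → ∀ y : ℝ, y ≤ T ^ (ε / 2 + 2 * δ) → 0 ≤ y →
      ∀ z : ℝ, 0 ≤ z → z ≤ A ^ 4 → c * z * y ≤ E := by
    intro c hc hcK y hy hy0 z hz hzA
    rw [hE]
    exact mul_le_mul (mul_le_mul hcK hzA hz hK0.le) hy hy0 (by positivity)
  have hcardP : (0 : ℝ) ≤ (J.card : ℝ) := Nat.cast_nonneg _
  -- first inequality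
  have hp1 : (J.card : ℝ) * lam ^ 2 ≤ E * T * (W.card : ℝ) := by
    have h := hb1 T (T ^ (δ - 1)) (5 * T ^ δ) W J x hT1 hη1 hSep0 hWS
    have h' : (J.card : ℝ) * lam ^ 2 ≤ ∑ j ∈ J, ‖rho W (x j)‖ ^ 2 := by
      calc (J.card : ℝ) * lam ^ 2 = ∑ j ∈ J, lam ^ 2 := by simp
        _ ≤ _ := Finset.sum_le_sum fun j hj => pow_le_pow_left₀ hlam0.le (hrho j hj) 2
    have hE' : C₁ * (5 * T ^ δ) ≤ E := by
      have h6 := hElow (5 * C₁) (by positivity) (by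
        rw [hK]
        have : 0 ≤ C₄ * D₁ ^ 4 := by positivity
        linarith [hCL.le, hC₃.le]) (T ^ δ)
        (Real.rpow_le_rpow_of_exponent_le hT1 (by linarith)) (by positivity) 1 (by norm_num) hA4
      calc C₁ * (5 * T ^ δ) = 5 * C₁ * 1 * T ^ δ := by ring
        _ ≤ E := h6
    calc (J.card : ℝ) * lam ^ 2 ≤ C₁ * (5 * T ^ δ) * T * (W.card : ℝ) := h'.trans h
      _ ≤ E * T * (W.card : ℝ) :=
          mul_le_mul_of_nonneg_right (mul_le_mul_of_nonneg_right hE' hT0.le) hR0.le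
  -- second inequality
  set Jc : ℝ := ∑ i ∈ J, ∑ i' ∈ J, cnt (Finset.Ioc N₀ (2 * N₀)) (x i - x i') (T ^ (δ - 1))
    with hJc
  have hJc1 : 1 ≤ Jc := by
    have h6 : cnt (Finset.Ioc N₀ (2 * N₀)) (x j₀ - x j₀) (T ^ (δ - 1)) ≤
        ∑ i' ∈ J, cnt (Finset.Ioc N₀ (2 * N₀)) (x j₀ - x i') (T ^ (δ - 1)) :=
      Finset.single_le_sum
        (f := fun i' : ℤ => cnt (Finset.Ioc N₀ (2 * N₀)) (x j₀ - x i') (T ^ (δ - 1)))
        (fun i' _ => BQS_cnt_nonneg _ _ _) hj₀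
    have h7 : ∑ i' ∈ J, cnt (Finset.Ioc N₀ (2 * N₀)) (x j₀ - x i') (T ^ (δ - 1)) ≤ Jc :=
      Finset.single_le_sum
        (f := fun i : ℤ => ∑ i' ∈ J, cnt (Finset.Ioc N₀ (2 * N₀)) (x i - x i') (T ^ (δ - 1)))
        (fun i _ => Finset.sum_nonneg fun i' _ => BQS_cnt_nonneg _ _ _) hj₀
    have h8 := BQS_cnt_zero (Finset.Ioc N₀ (2 * N₀)) (T ^ (δ - 1)) hη0.le
    rw [sub_self] at h6
    have h9 : (1 : ℝ) ≤ ((Finset.Ioc N₀ (2 * N₀)).card : ℝ) := by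
      rw [Nat.card_Ioc]
      exact_mod_cast (by omega : 1 ≤ 2 * N₀ - N₀)
    linarith
  have hp2 : ((J.card : ℝ) * lam) ^ 2 * (V₀ ^ 2) ≤ E * (W.card : ℝ) * T * Jc := by
    have h := h2 T (T ^ (δ - 1)) W N₀ a A V₀ lam J x hT1 hSep0 hN0pos hN0T hη0.le hA0.le hV₀.le
      ha hDP hWS.1 hlam0.le hrho
    have hg : (J.card : ℝ) ^ 2 * (N₀ : ℝ) ^ 2 * Real.exp (-(T * T ^ (δ - 1)) ^ 2 / 4) ≤ Jc := by
      rw [hTη]
      have h6 := hgauss T hT5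
      have h7 : (J.card : ℝ) ^ 2 * (N₀ : ℝ) ^ 2 ≤ 400 * T ^ (3 : ℕ) := by
        have h8 : (J.card : ℝ) ^ 2 ≤ (20 * T) ^ 2 := pow_le_pow_left₀ hcardP hJ 2
        calc (J.card : ℝ) ^ 2 * (N₀ : ℝ) ^ 2 ≤ (20 * T) ^ 2 * T :=
              mul_le_mul h8 hN2 (by positivity) (by positivity)
          _ = 400 * T ^ (3 : ℕ) := by ring
      calc (J.card : ℝ) ^ 2 * (N₀ : ℝ) ^ 2 * Real.exp (-(T ^ δ) ^ 2 / 4)
          ≤ 400 * T ^ (3 : ℕ) * Real.exp (-(T ^ δ) ^ 2 / 4) :=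
            mul_le_mul_of_nonneg_right h7 (Real.exp_pos _).le
        _ ≤ 1 := h6
        _ ≤ Jc := hJc1
    have hE' : 2 * 10 ^ 5 * (Real.log T + 8) ^ 2 * A ^ 2 ≤ E := by
      have h6 := hElow (2 * 10 ^ 5 * CL) (by positivity) (by
        rw [hK]
        have : 0 ≤ C₄ * D₁ ^ 4 := by positivity
        linarith [hC₁.le, hC₃.le]) (T ^ (ε / 2))
        (Real.rpow_le_rpow_of_exponent_le hT1 (by linarith)) (by positivity) (A ^ 2)
        (by positivity) (pow_le_pow_right₀ hA (by norm_num))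
      calc 2 * 10 ^ 5 * (Real.log T + 8) ^ 2 * A ^ 2
          ≤ 2 * 10 ^ 5 * (CL * T ^ (ε / 2)) * A ^ 2 := by
            have := hlog T hT1
            gcongr
        _ = 2 * 10 ^ 5 * CL * A ^ 2 * T ^ (ε / 2) := by ring
        _ ≤ E := h6
    calc ((J.card : ℝ) * lam) ^ 2 * (V₀ ^ 2)
        ≤ 10 ^ 5 * (W.card : ℝ) * T * (Real.log T + 8) ^ 2 * A ^ 2 * (Jc +
          (J.card : ℝ) ^ 2 * (N₀ : ℝ) ^ 2 * Real.exp (-(T * T ^ (δ - 1)) ^ 2 / 4)) := h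
      _ ≤ 10 ^ 5 * (W.card : ℝ) * T * (Real.log T + 8) ^ 2 * A ^ 2 * (Jc + Jc) :=
          mul_le_mul_of_nonneg_left (by linarith) (by positivity)
      _ = (2 * 10 ^ 5 * (Real.log T + 8) ^ 2 * A ^ 2) * ((W.card : ℝ) * T * Jc) := by ring
      _ ≤ E * ((W.card : ℝ) * T * Jc) :=
          mul_le_mul_of_nonneg_right hE' (mul_nonneg (mul_nonneg hR0.le hT0.le) (by linarith))
      _ = E * (W.card : ℝ) * T * Jc := by ring
  -- third inequality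
  have hp3 : lam ^ 2 * Jc ≤
      E * ((W.card : ℝ) ^ (1 / 2 : ℝ) * (N₀ : ℝ) ^ 2 * (SN W J x) ^ (1 / 2 : ℝ)) := by
    have h := hb3 T hT3 W hW N₀ lam J x hN1 hN2 hS0 hWS hlam hrho
    have hE' : C₃ * T ^ (ε / 2 + 2 * δ) ≤ E := by
      have h6 := hElow C₃ hC₃.le (by
        rw [hK]
        have : 0 ≤ C₄ * D₁ ^ 4 := by positivity
        linarith [hC₁.le, hCL.le]) (T ^ (ε / 2 + 2 * δ)) le_rfl (by positivity) 1
        (by norm_num) hA4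
      calc C₃ * T ^ (ε / 2 + 2 * δ) = C₃ * 1 * T ^ (ε / 2 + 2 * δ) := by ring
        _ ≤ E := h6
    have hnn : 0 ≤ (W.card : ℝ) ^ (1 / 2 : ℝ) * (N₀ : ℝ) ^ 2 * (SN W J x) ^ (1 / 2 : ℝ) := by
      have := Real.rpow_nonneg (BQS_SN_nonneg W J x) (1 / 2 : ℝ)
      positivity
    exact h.trans (mul_le_mul_of_nonneg_right hE' hnn)
  -- fourth inequality
  have hp4 : (V₀ ^ 2) ^ 2 * SN W J x ≤ E * (((N₀ : ℝ) ^ 2) ^ 2 * (J.card : ℝ) *
      (SN W J x) ^ (1 / 2 : ℝ) + T * (N₀ : ℝ) ^ 2 * (J.card : ℝ) * S0 δ T W / lam) := by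
    obtain ⟨b, hb, hbs⟩ := pow_poly N₀ hN0pos a A hA0.le ha 2 (by norm_num)
    have hcastN : ((N₀ ^ 2 : ℕ) : ℝ) = (N₀ : ℝ) ^ 2 := by push_cast; ring
    have h22 : (2 * N₀) ^ 2 = 4 * N₀ ^ 2 := by ring
    set Dv : ℝ := D₁ * T ^ (ε / 16) with hDv
    have hTe16 : 1 ≤ T ^ (ε / 16) := Real.one_le_rpow hT1 (by positivity)
    have hDv1 : 1 ≤ Dv := by
      rw [hDv]; nlinarith
    have hbB : ∀ n ∈ Finset.Ioc (N₀ ^ 2) (4 * N₀ ^ 2), ‖b n‖ ≤ A ^ 2 * Dv ^ 2 := by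
      intro n hn
      rw [Finset.mem_Ioc] at hn
      have hn1 : 1 ≤ n := by omega
      have hn4 : (n : ℝ) ≤ 4 * T := by
        have h6 : (n : ℝ) ≤ ((4 * N₀ ^ 2 : ℕ) : ℝ) := by exact_mod_cast hn.2
        push_cast at h6
        linarith
      have hd : d n ≤ Dv := by
        calc d n ≤ D₀ * (n : ℝ) ^ (ε / 16) := hdiv n hn1
          _ ≤ D₀ * (4 * T) ^ (ε / 16) := by
              apply mul_le_mul_of_nonneg_left _ hD₀.le
              exact Real.rpow_le_rpow (Nat.cast_nonneg _) hn4 (by positivity)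
          _ = D₀ * (4 : ℝ) ^ (ε / 16) * T ^ (ε / 16) := by
              rw [Real.mul_rpow (by norm_num) hT0.le]; ring
          _ ≤ D₁ * T ^ (ε / 16) :=
              mul_le_mul_of_nonneg_right (le_max_right _ _) (by positivity)
      exact (hb n).trans (mul_le_mul_of_nonneg_left
        (pow_le_pow_left₀ (PW_d_nonneg n) hd 2) (by positivity))
    have hDG : ∀ t ∈ W, V₀ ^ 2 ≤ ‖DG (Finset.Ioc (N₀ ^ 2) (4 * N₀ ^ 2)) b t‖ := by
      intro t ht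
      have h6 := hbs ((t : ℂ) * I)
      have h7 : DG (Finset.Ioc (N₀ ^ 2) (4 * N₀ ^ 2)) b t = DP N₀ a t ^ 2 := by
        unfold DG DP
        rw [h6, h22]
      rw [h7, norm_pow]
      exact pow_le_pow_left₀ hV₀.le (hDP t ht) 2
    have h := hb4 T hT4 W hW (N₀ ^ 2) b (A ^ 2 * Dv ^ 2) (V₀ ^ 2) lam J x
      (by rw [hcastN]; exact hN1) (by rw [hcastN]; exact hN2)
      (by
        have h6 : 1 ≤ A ^ 2 := one_le_pow₀ hA
        have h7 : 1 ≤ Dv ^ 2 := one_le_pow₀ hDv1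
        nlinarith)
      (by positivity) hbB hDG hWS hJ hlam hrho
    rw [hcastN] at h
    have hE' : C₄ * (A ^ 2 * Dv ^ 2) ^ 2 * T ^ (ε / 4 + 2 * δ) ≤ E := by
      have h6 := hElow (C₄ * D₁ ^ 4) (by positivity) (by
        rw [hK]
        linarith [hC₁.le, hCL.le, hC₃.le]) (T ^ (ε / 2 + 2 * δ)) le_rfl (by positivity) (A ^ 4)
        (by positivity) le_rfl
      have h7 : Dv ^ 4 = D₁ ^ 4 * T ^ (ε / 4) := by
        rw [hDv, mul_pow, ← Real.rpow_natCast (T ^ (ε / 16)), ← Real.rpow_mul hT0.le]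
        congr 2
        push_cast
        ring
      calc C₄ * (A ^ 2 * Dv ^ 2) ^ 2 * T ^ (ε / 4 + 2 * δ)
          = C₄ * A ^ 4 * Dv ^ 4 * T ^ (ε / 4 + 2 * δ) := by ring
        _ = C₄ * D₁ ^ 4 * A ^ 4 * (T ^ (ε / 4) * T ^ (ε / 4 + 2 * δ)) := by rw [h7]; ring
        _ = C₄ * D₁ ^ 4 * A ^ 4 * T ^ (ε / 2 + 2 * δ) := by
            rw [← Real.rpow_add hT0]
            congr 2
            ring
        _ ≤ E := h6
    have hnn : 0 ≤ ((N₀ : ℝ) ^ 2) ^ 2 * (J.card : ℝ) * (SN W J x) ^ (1 / 2 : ℝ) +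
        T * (N₀ : ℝ) ^ 2 * (J.card : ℝ) * S0 δ T W / lam := by
      have := Real.rpow_nonneg (BQS_SN_nonneg W J x) (1 / 2 : ℝ)
      positivity
    exact h.trans (mul_le_mul_of_nonneg_right hE' hnn)
  have hfin := h5 (J.card : ℝ) lam (W.card : ℝ) T ((N₀ : ℝ) ^ 2) (V₀ ^ 2) E (S0 δ T W) Jc
    (SN W J x) hcardP hlam0 hR0 hT0 hNsq (by positivity) hE1 hS00 (by linarith)
    (BQS_SN_nonneg W J x) hp1 hp2 hp3 hp4
  calc (J.card : ℝ) * lam ^ 3 ≤ 2 * E ^ 2 * T * ((W.card : ℝ) ^ (5 / 4 : ℝ) *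
        ((N₀ : ℝ) ^ 2 / V₀ ^ 2) ^ (3 / 2 : ℝ) +
        (W.card : ℝ) * (S0 δ T W) ^ (1 / 3 : ℝ) * (N₀ : ℝ) ^ 2 *
          (V₀ ^ 2) ^ (-(4 / 3 : ℝ))) := hfin
    _ = 2 * E ^ 2 * (T * KQ (W.card : ℝ) ((N₀ : ℝ) ^ 2) (V₀ ^ 2) (S0 δ T W)) := by
        unfold KQ
        ring
    _ = 2 * K ^ 2 * A ^ 8 * T ^ (ε + 4 * δ) *
        (T * KQ (W.card : ℝ) ((N₀ : ℝ) ^ 2) (V₀ ^ 2) (S0 δ T W)) := by
        have h6 : (T ^ (ε / 2 + 2 * δ)) ^ 2 = T ^ (ε + 4 * δ) := by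
          rw [← Real.rpow_natCast, ← Real.rpow_mul hT0.le]
          congr 1
          push_cast
          ring
        rw [hE, mul_pow, mul_pow, h6]
        ring

end Pool.Agent.ZD
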